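import Mathlib
import Pool.Agent.H13.PermList

set_option autoImplicit false

namespace Pool.Agent.Results.MP_094caa_co.Counter

open Finset

def inv {n : ℕ} (σ : Equiv.Perm (Fin n)) : ℕ :=
  (univ.filter (fun p : Fin n × Fin n => p.1 < p.2 ∧ σ p.2 < σ p.1)).card

open Classical in
noncomputable def occ {k n : ℕ} (π : Equiv.Perm (Fin k)) (σ : Equiv.Perm (Fin n)) : ℕ :=
  ((range (n + 1)).filter (fun i => ∃ h : i + k ≤ n, ∀ a b : Fin k,
    (σ ⟨i + a, by omega⟩ < σ ⟨i + b, by omega⟩ ↔ π a < π b))).card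

noncomputable def expect {k : ℕ} (π : Equiv.Perm (Fin k)) (n m : ℕ) : ℚ :=
  (∑ σ ∈ univ.filter (fun σ : Equiv.Perm (Fin n) => inv σ = m), (occ π σ : ℚ)) /
    (univ.filter (fun σ : Equiv.Perm (Fin n) => inv σ = m)).card

def Unimodal (a : ℕ → ℚ) (N : ℕ) : Prop :=
  ∃ j ≤ N, (∀ i, i + 1 ≤ j → a i ≤ a (i + 1)) ∧ ∀ i, j ≤ i → i + 1 ≤ N → a (i + 1) ≤ a i

def lt (a b : Fin 7) : ℕ := if Nat.blt a.1 b.1 then 1 else 0

def chk (a b c d e : Fin 7) : ℕ :=
  if Nat.blt e.1 a.1 && Nat.blt a.1 b.1 && Nat.blt b.1 c.1 && Nat.blt c.1 d.1 then 1 else 0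

def invL : List (Fin 7) → ℕ
  | [a, b, c, d, e, f, g] => lt b a + lt c a + lt d a + lt e a + lt f a + lt g a +
      lt c b + lt d b + lt e b + lt f b + lt g b + lt d c + lt e c + lt f c + lt g c +
      lt e d + lt f d + lt g d + lt f e + lt g e + lt g f
  | _ => 0

def occL : List (Fin 7) → ℕ
  | [a, b, c, d, e, f, g] => chk a b c d e + chk b c d e f + chk c d e f g
  | _ => 0

theorem ofFn7 (σ : Equiv.Perm (Fin 7)) : List.ofFn σ = [σ 0, σ 1, σ 2, σ 3, σ 4, σ 5, σ 6] := by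
  simp [List.ofFn_succ]

theorem inv_eq (σ : Equiv.Perm (Fin 7)) : inv σ = invL (List.ofFn σ) := by
  rw [ofFn7, inv, card_filter, Fintype.sum_prod_type]
  simp only [Fin.sum_univ_seven, invL, lt, Nat.blt_eq, ← Fin.lt_def]
  simp
  ring

theorem chk_eq (f : Fin 5 → Fin 7) [Decidable (∀ a b : Fin 5,
    (f a < f b ↔ finRotate 5 a < finRotate 5 b))] : chk (f 0) (f 1) (f 2) (f 3) (f 4) =
    if ∀ a b : Fin 5, (f a < f b ↔ finRotate 5 a < finRotate 5 b) then 1 else 0 := by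
  unfold chk
  refine if_congr ?_ rfl rfl
  simp only [Bool.and_eq_true, Nat.blt_eq]
  constructor
  · rintro ⟨⟨⟨h1, h2⟩, h3⟩, h4⟩ a b
    fin_cases a <;> fin_cases b <;> simp <;> omega
  · intro h
    exact ⟨⟨⟨(h 4 0).2 (by decide), (h 0 1).2 (by decide)⟩, (h 1 2).2 (by decide)⟩,
      (h 2 3).2 (by decide)⟩

theorem occ_eq (σ : Equiv.Perm (Fin 7)) : occ (finRotate 5) σ = occL (List.ofFn σ) := by
  classical
  rw [ofFn7, occ, card_filter, occL]
  simp only [sum_range_succ, sum_range_zero]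
  rw [if_neg (c := ∃ h : 3 + 5 ≤ 7, _) (by rintro ⟨h, -⟩; omega),
    if_neg (c := ∃ h : 4 + 5 ≤ 7, _) (by rintro ⟨h, -⟩; omega),
    if_neg (c := ∃ h : 5 + 5 ≤ 7, _) (by rintro ⟨h, -⟩; omega),
    if_neg (c := ∃ h : 6 + 5 ≤ 7, _) (by rintro ⟨h, -⟩; omega),
    if_neg (c := ∃ h : 7 + 5 ≤ 7, _) (by rintro ⟨h, -⟩; omega)]
  have k0 := chk_eq (fun a => σ ⟨0 + a, by omega⟩)
  have k1 := chk_eq (fun a => σ ⟨1 + a, by omega⟩)
  have k2 := chk_eq (fun a => σ ⟨2 + a, by omega⟩)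
  simp only [exists_prop_of_true (show 0 + 5 ≤ 7 by omega),
    exists_prop_of_true (show 1 + 5 ≤ 7 by omega), exists_prop_of_true (show 2 + 5 ≤ 7 by omega),
    ← k0, ← k1, ← k2, add_zero]
  rw [zero_add]
  rfl

def wt (l : List (Fin 7)) (m : ℕ) : ℕ × ℕ := if invL l = m then (occL l, 1) else (0, 0)

theorem expect_eq (m a b : ℕ)
    (h : ∑ σ : Equiv.Perm (Fin 7), wt (List.ofFn σ) m = (a, b)) :
    expect (finRotate 5) 7 m = a / b := by
  have h1 := congrArg Prod.fst h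
  have h2 := congrArg Prod.snd h
  simp only [Prod.fst_sum, Prod.snd_sum, wt, ← inv_eq, ← occ_eq, apply_ite Prod.fst,
    apply_ite Prod.snd] at h1 h2
  rw [expect, card_filter, h2, ← Nat.cast_sum, sum_filter, h1]

theorem e0 (m : ℕ) : ∑ σ : Equiv.Perm (Fin 7), wt (List.ofFn σ) m =
    ((List.finRange 7).permutations'.map (fun l => wt l m)).sum :=
  Pool.Agent.H13.PermList.sumPerm (fun l => wt l m)

theorem e7 : ((List.finRange 7).permutations'.map (fun l => wt l 7)).sum = (12, 359) := by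
  decide +kernel

theorem e8 : ((List.finRange 7).permutations'.map (fun l => wt l 8)).sum = (15, 455) := by
  decide +kernel

theorem e9 : ((List.finRange 7).permutations'.map (fun l => wt l 9)).sum = (18, 531) := by
  decide +kernel

theorem result : ¬ ∀ (k : ℕ) (π : Equiv.Perm (Fin k)) (n : ℕ), 1 ≤ k → k + 2 ≤ n →
    Unimodal (expect π n) (n.choose 2) := by
  intro h
  obtain ⟨j, -, h1, h2⟩ := h 5 (finRotate 5) 7 (by omega) le_rfl
  by_cases c : 8 ≤ j
  · have := h1 7 c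
    rw [expect_eq 7 _ _ ((e0 7).trans e7), expect_eq 8 _ _ ((e0 8).trans e8)] at this
    norm_num at this
  · have := h2 8 (by omega) (by decide)
    rw [expect_eq 9 _ _ ((e0 9).trans e9), expect_eq 8 _ _ ((e0 8).trans e8)] at this
    norm_num at this

end Pool.Agent.Results.MP_094caa_co.Counter
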